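import Pool.Agent.Run7.h420.TM.Stm

/-! Project TM, piece CHAIN. Author: helper923. -/


/-!
Project TM, piece CHAIN.
-/

set_option autoImplicit false

namespace Pool.Agent.Run7.h420.TM

open MeasureTheory Filter Topology Set

theorem h923_cohom_symm {G X L : Type} [Group G] [MulAction G X] [MeasurableSpace X] [Group L]
    {μ : Measure X} {w₁ w₂ : G → X → L} (h : Cohom μ w₁ w₂) : Cohom μ w₂ w₁ := by
  obtain ⟨φ, hφ, h⟩ := h
  refine ⟨fun x => (φ x)⁻¹, fun l => ?_, fun g => ?_⟩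
  · have : {x | (φ x)⁻¹ = l} = {x | φ x = l⁻¹} := by
      ext x
      exact inv_eq_iff_eq_inv
    rw [this]
    exact hφ _
  · filter_upwards [h g] with x hx
    have : w₂ g x = (φ (g • x))⁻¹ * (w₁ g x * φ x) := by
      rw [hx]
      group
    rw [this]
    group

theorem h923_cohom_trans {G X L : Type} [Group G] [MulAction G X] [MeasurableSpace X] [Group L]
    [Countable L] {μ : Measure X} {w₁ w₂ w₃ : G → X → L} (h : Cohom μ w₁ w₂)
    (h' : Cohom μ w₂ w₃) : Cohom μ w₁ w₃ := by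
  obtain ⟨φ, hφ, h⟩ := h
  obtain ⟨ψ, hψ, h'⟩ := h'
  refine ⟨fun x => φ x * ψ x, fun l => ?_, fun g => ?_⟩
  · have : {x | φ x * ψ x = l} = ⋃ k : L, ({x | φ x = k} ∩ {x | ψ x = k⁻¹ * l}) := by
      ext x
      rw [Set.mem_iUnion]
      constructor
      · intro hx
        refine ⟨φ x, rfl, ?_⟩
        show ψ x = (φ x)⁻¹ * l
        rw [← show φ x * ψ x = l from hx]
        group
      · rintro ⟨k, hk, hk2⟩
        show φ x * ψ x = l
        rw [show φ x = k from hk, show ψ x = k⁻¹ * l from hk2]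
        group
    rw [this]
    exact MeasurableSet.iUnion (fun k => (hφ k).inter (hψ _))
  · filter_upwards [h g, h' g] with x hx hx'
    rw [← mul_assoc, hx, mul_assoc, hx', ← mul_assoc]

theorem t_CHAIN : S_VEC → S_PHI → S_CONT → S_MIXBERN → S_MIXPROD → S_PROBS → S_QPRES →
    S_CHAIN := by
  intro hVEC hPHI hCONT hMB hMP hPR hQ G _ _ _ hT L _ _ w hw
  obtain ⟨hp1, hp2⟩ := hPR
  have hmixX : Mixing G (XX G) (muX G) := hMB G UnitAddCircle volume hp1
  have hmixY : Mixing G (YY G) (muY G) := hMB G ℝ (volume.restrict (Set.Ioc (0 : ℝ) 1)) hp2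
  have hmix : Mixing G (XX G × YY G) ((muX G).prod (muY G)) :=
    hMP G (XX G) (YY G) (muX G) (muY G) hmixX hmixY
  set P : Measure (XX G × YY G) := (muX G).prod (muY G) with hP
  have hPp : IsProbabilityMeasure P := hmix.prob
  have hcoc : ∀ t : ℝ, Cocycle G (XX G × YY G) L (fun g p => w g (qt G t p)) := by
    intro t
    refine ⟨fun g l => ?_, fun g h p => ?_⟩
    · exact (hQ G t).measurable (hw.meas g l)
    · exact hw.mul g h (qt G t p)
  obtain ⟨S, κ, hκ, hV⟩ := hVEC G hT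
  have hnear : ∀ t₀ : ℝ, ∀ᶠ t in 𝓝 t₀,
      Cohom P (fun g p => w g (qt G t p)) (fun g p => w g (qt G t₀ p)) := by
    intro t₀
    have h1 : ∀ s ∈ S, ∀ᶠ t in 𝓝 t₀,
        P.real {p | w s (qt G t p) ≠ w s (qt G t₀ p)} < κ := by
      intro s _
      have h2 := hCONT G L (w s) t₀ (hw.meas s)
      exact h2.eventually (gt_mem_nhds hκ)
    have h3 := (Filter.eventually_all_finset S).mpr h1
    filter_upwards [h3] with t ht
    obtain ⟨η, hη1, hη2, hη3⟩ := hV (XX G × YY G) L P (fun g p => w g (qt G t p))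
      (fun g p => w g (qt G t₀ p)) hPp hmix.pres (hcoc t) (hcoc t₀) ht
    exact hPHI G (XX G × YY G) L P (fun g p => w g (qt G t p)) (fun g p => w g (qt G t₀ p)) η
      hmix hη1 hη2 hη3
  set A : Set ℝ := {t | Cohom P (fun g p => w g (qt G t p)) (fun g p => w g (qt G 0 p))} with hA
  have hopen : IsOpen A := by
    rw [isOpen_iff_mem_nhds]
    intro t₀ ht₀
    filter_upwards [hnear t₀] with t ht
    exact h923_cohom_trans ht ht₀
  have hclosed : IsClosed A := by
    rw [← isOpen_compl_iff, isOpen_iff_mem_nhds]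
    intro t₀ ht₀
    filter_upwards [hnear t₀] with t ht
    intro htA
    exact ht₀ (h923_cohom_trans (h923_cohom_symm ht) htA)
  have h0 : (0 : ℝ) ∈ A := (hnear 0).self_of_nhds
  have huniv : A = Set.univ := IsClopen.eq_univ ⟨hclosed, hopen⟩ ⟨0, h0⟩
  have h1 : (1 : ℝ) ∈ A := by
    rw [huniv]
    exact Set.mem_univ _
  exact h1

end Pool.Agent.Run7.h420.TM
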