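import Pool.Agent.Run7.h420.TM.Stm

/-! Project TM, piece COC. Author: helper298. -/


/-!
# Piece COC of project TM (helper420, MP_45e9b0_lc)
-/

set_option autoImplicit false

namespace Pool.Agent.Run7.h298.TM

open MeasureTheory Filter Topology Set
open Pool.Agent.Run7.h420.TM

theorem t_COC : S_COC := by
  classical
  intro G X Y _ _ _ _ _ _ _ μ f X0 hS K hK hstab
  -- the good set
  set X1 : Set X := {x | x ∈ X0 ∧ ∀ g : G, g • f x = f x ↔ g ∈ K} with hX1
  have hmem1 : ∀ x ∈ X1, ∀ g : G, g • f x = f x ↔ g ∈ K := fun x hx => hx.2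
  have hex : ∀ x ∈ X0, ∀ g : G, ∃ h : G, f (g • x) = h • f x := by
    intro x hx g
    have h1 := (hS.red x hx (g • x) (hS.X0inv g x hx)).1 ⟨g, rfl⟩
    obtain ⟨h, hh⟩ := h1
    exact ⟨h, hh.symm⟩
  have hinv : ∀ x ∈ X1, ∀ g : G, g • x ∈ X1 := by
    intro x hx g
    refine ⟨hS.X0inv g x hx.1, fun k => ?_⟩
    obtain ⟨h, hh⟩ := hex x hx.1 g
    rw [hh]
    have e1 : (k • h • f x = h • f x) ↔ ((h⁻¹ * k * h) • f x = f x) := by
      constructor
      · intro h1
        rw [mul_smul, mul_smul, h1, inv_smul_smul]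
      · intro h1
        rw [mul_smul, mul_smul, inv_smul_eq_iff] at h1
        exact h1
    rw [e1, hx.2]
    constructor
    · intro h1
      have h2 := hK.conj_mem _ h1 h
      have : h * (h⁻¹ * k * h) * h⁻¹ = k := by group
      rwa [this] at h2
    · intro h1
      have h2 := hK.conj_mem _ h1 h⁻¹
      have : h⁻¹ * k * h⁻¹⁻¹ = h⁻¹ * k * h := by group
      rwa [this] at h2
  have hninv : ∀ x, x ∉ X1 → ∀ g : G, g • x ∉ X1 := by
    intro x hx g hg
    have := hinv _ hg g⁻¹
    rw [inv_smul_smul] at this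
    exact hx this
  have hex1 : ∀ (g : G) (x : X), ∃ h : G, x ∈ X1 → f (g • x) = h • f x := by
    intro g x
    by_cases hx : x ∈ X1
    · obtain ⟨h, hh⟩ := hex x hx.1 g
      exact ⟨h, fun _ => hh⟩
    · exact ⟨1, fun h => absurd h hx⟩
  choose c hc using hex1
  let w : G → X → G ⧸ K := fun g x => if x ∈ X1 then ((c g x : G) : G ⧸ K) else 1
  have hw1 : ∀ g x, x ∈ X1 → ∀ h : G, (w g x = (h : G ⧸ K) ↔ f (g • x) = h • f x) := by
    intro g x hx h
    simp only [w, if_pos hx]
    rw [QuotientGroup.eq, ← hx.2, mul_smul, inv_smul_eq_iff, ← hc g x hx]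
    exact eq_comm
  have hw0 : ∀ g x, x ∉ X1 → w g x = 1 := by
    intro g x hx
    simp only [w, if_neg hx]
  have hmeasg : ∀ g : G, Measurable (fun x : X => g • x) := fun g => (hS.mix.pres g).measurable
  have hX1m : MeasurableSet X1 := by
    have : X1 = X0 ∩ ⋂ g : G, {x | g • f x = f x ↔ g ∈ K} := by
      ext x
      simp [hX1]
    rw [this]
    refine hS.X0meas.inter (MeasurableSet.iInter fun g => ?_)
    have h1 : MeasurableSet {x | g • f x = f x} :=
      measurableSet_eq_fun ((hS.smulY g).comp hS.fmeas) hS.fmeas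
    by_cases hg : g ∈ K
    · simpa [hg] using h1
    · have h2 : {x | g • f x = f x ↔ g ∈ K} = {x | g • f x = f x}ᶜ := by
        ext x
        simp [hg]
      rw [h2]
      exact h1.compl
  refine ⟨w, ⟨?_, ?_⟩, ?_⟩
  · intro g l
    obtain ⟨h, rfl⟩ := QuotientGroup.mk_surjective l
    have h1 : MeasurableSet {x | f (g • x) = h • f x} :=
      measurableSet_eq_fun (hS.fmeas.comp (hmeasg g)) ((hS.smulY h).comp hS.fmeas)
    by_cases hh : (1 : G ⧸ K) = (h : G ⧸ K)
    · have : {x | w g x = (h : G ⧸ K)} = (X1 ∩ {x | f (g • x) = h • f x}) ∪ X1ᶜ := by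
        ext x
        by_cases hx : x ∈ X1
        · simp [hx, hw1 g x hx h]
        · simp [hx, hw0 g x hx, hh]
      rw [this]
      exact (hX1m.inter h1).union hX1m.compl
    · have : {x | w g x = (h : G ⧸ K)} = X1 ∩ {x | f (g • x) = h • f x} := by
        ext x
        by_cases hx : x ∈ X1
        · simp [hx, hw1 g x hx h]
        · simp [hx, hw0 g x hx, hh]
      rw [this]
      exact hX1m.inter h1
  · intro g h x
    by_cases hx : x ∈ X1
    · have hhx := hinv x hx h
      obtain ⟨a, ha⟩ := QuotientGroup.mk_surjective (w g (h • x))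
      obtain ⟨b, hb⟩ := QuotientGroup.mk_surjective (w h x)
      have h1 := (hw1 g (h • x) hhx a).1 ha.symm
      have h2 := (hw1 h x hx b).1 hb.symm
      rw [← ha, ← hb, ← QuotientGroup.mk_mul]
      refine (hw1 (g * h) x hx (a * b)).2 ?_
      rw [mul_smul, h1, h2, mul_smul]
    · rw [hw0 _ x hx, hw0 _ x hx, hw0 _ _ (hninv x hx h), mul_one]
  · have hX0 : ∀ᵐ x ∂μ, x ∈ X0 := by
      rw [ae_iff]
      exact hS.X0null
    filter_upwards [hX0, hstab] with x hx0 hx
    have hx1 : x ∈ X1 := by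
      refine ⟨hx0, fun g => ?_⟩
      rw [← hx, MulAction.mem_stabilizer_iff]
    exact ⟨hx, fun g h => hw1 g x hx1 h⟩

end Pool.Agent.Run7.h298.TM


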