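import Pool.Agent.Run7.h420.TM.Stm

/-! Project TM, piece FIB. Author: helper420 (also by helper280). -/

set_option autoImplicit false
namespace Pool.Agent.Run7.h420.TM
open MeasureTheory Filter Topology Set

theorem v_FIB : S_POS → S_ERG → S_FIB := by
  intro hPos hErg G Z X L _ _ _ _ _ _ _ _ ζ μ h a b hζ hμ hmix hh hinv
  have m1 : MeasurePreserving (fun q : Z × (X × X) => (q.1, q.2.1)) (ζ.prod (μ.prod μ)) (ζ.prod μ) :=
    (MeasurePreserving.id ζ).prod measurePreserving_fst
  have m2 : MeasurePreserving (fun q : Z × (X × X) => (q.1, q.2.2)) (ζ.prod (μ.prod μ)) (ζ.prod μ) :=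
    (MeasurePreserving.id ζ).prod measurePreserving_snd
  have hm : MeasurableSet {q : Z × (X × X) | h (q.1, q.2.1) = h (q.1, q.2.2)} := by
    have e : {q : Z × (X × X) | h (q.1, q.2.1) = h (q.1, q.2.2)} =
        ⋃ l : L, ({q : Z × (X × X) | h (q.1, q.2.1) = l} ∩ {q | h (q.1, q.2.2) = l}) := by
      ext q; simp [eq_comm]
    rw [e]
    exact MeasurableSet.iUnion fun l => (m1.measurable (hh l)).inter (m2.measurable (hh l))
  have hinf : (Set.univ : Set G).Infinite := Set.infinite_univ
  have key := hErg G (Z × (X × X)) (ζ.prod (μ.prod μ)) Set.univ _ hmix hinf hm (by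
    intro g _
    have h1 := m1.quasiMeasurePreserving.ae (hinv g)
    have h2 := m2.quasiMeasurePreserving.ae (hinv g)
    filter_upwards [h1, h2] with q q1 q2
    have q1' : h (g • q.1, g • q.2.1) = a g q.1 * h (q.1, q.2.1) * b g q.1 := q1
    have q2' : h (g • q.1, g • q.2.2) = a g q.1 * h (q.1, q.2.2) * b g q.1 := q2
    show h (g • q.1, g • q.2.1) = h (g • q.1, g • q.2.2) ↔ h (q.1, q.2.1) = h (q.1, q.2.2)
    rw [q1', q2']
    constructor
    · intro h3; exact mul_left_cancel (mul_right_cancel h3)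
    · intro h3; rw [h3])
  have hp : IsProbabilityMeasure (ζ.prod (μ.prod μ)) := hmix.prob
  rcases key with h0 | h1
  · exact absurd h0 (hPos Z X L ζ μ h hζ hμ hh)
  · exact (prob_compl_eq_zero_iff hm).2 h1
end Pool.Agent.Run7.h420.TM
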