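import Pool.Agent.Run7.h420.TM.Stm

/-! Project TM, piece HOM. Author: helper420 (also by helper416). -/

set_option autoImplicit false
namespace Pool.Agent.Run7.h420.TM
open MeasureTheory Filter Topology Set

theorem v_HOM : S_HOM := by
  intro G X L _ _ _ _ _ _ μ w φ hmix hw hφw A B hA hB hAB
  have hp := hmix.prob
  have hpp : ∀ g : G, MeasurePreserving (fun p : X × X => g • p) (μ.prod μ) (μ.prod μ) :=
    fun g => (hmix.pres g).prod (hmix.pres g)
  have h1 : ∀ g : G, ∀ᵐ p ∂(μ.prod μ),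
      (B (g • p.2))⁻¹ * w g p.2 * B p.2 = A (g • p.1) * w g p.1 * (A p.1)⁻¹ := by
    intro g
    filter_upwards [hφw g, hAB, (hpp g).quasiMeasurePreserving.ae hAB] with p e1 e2 e3
    have e3' : φ (g • p) = B (g • p.2) * A (g • p.1) := e3
    rw [e2, e3'] at e1
    have : w g p.2 * B p.2 = B (g • p.2) * (A (g • p.1) * w g p.1 * (A p.1)⁻¹) := by
      calc w g p.2 * B p.2 = (w g p.2 * (B p.2 * A p.1)) * (A p.1)⁻¹ := by group
        _ = _ := by rw [e1]; group
    rw [mul_assoc, this]; group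
  have h2 : ∀ g : G, ∃ d : L, ∀ᵐ y ∂μ, (B (g • y))⁻¹ * w g y * B y = d := by
    intro g
    have h3 := Measure.ae_ae_of_ae_prod (h1 g)
    obtain ⟨x, hx⟩ := h3.exists
    exact ⟨A (g • x) * w g x * (A x)⁻¹, hx⟩
  choose δ hδ using h2
  have hmul : ∀ g h : G, δ (g * h) = δ g * δ h := by
    intro g h
    have e1 := hδ (g * h)
    have e2 := (hmix.pres h).quasiMeasurePreserving.ae (hδ g)
    have e3 := hδ h
    obtain ⟨y, ⟨y1, y2⟩, y3⟩ := ((e1.and e2).and e3).exists
    rw [← y1, ← y2, ← y3, hw.mul g h y, mul_smul]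
    group
  refine ⟨B, MonoidHom.mk' δ hmul, hB, ?_⟩
  intro g
  filter_upwards [hδ g] with y hy
  show w g y = B (g • y) * δ g * (B y)⁻¹
  rw [← hy]; group
end Pool.Agent.Run7.h420.TM
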