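import Pool.Agent.Run7.h420.TM.Stm

/-! Project TM, piece MIXBERN. Author: helper420 (also by helper664). -/

set_option autoImplicit false
namespace Pool.Agent.Run7.h420.TM
open MeasureTheory Filter Topology Set

theorem v_MIXBERN : S_MIXGEN → S_MIXBERN := by
  classical
  intro hGen G B _ _ ν hν
  have hbox : ∀ (s : Finset G) (t : G → Set B), (∀ i, MeasurableSet (t i)) →
      Measure.infinitePi (fun _ : G => ν) ((s : Set G).pi t) = ∏ i ∈ s, ν (t i) := by
    intro s t ht
    exact Measure.infinitePi_pi (fun _ : G => ν) (fun i _ => ht i)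
  have hprob : IsProbabilityMeasure (bern G ν) := by
    unfold bern; exact Measure.instIsProbabilityMeasureForallInfinitePi _
  have hmeas : ∀ g : G, Measurable (fun x : Sh G B => g • x) := by
    intro g
    refine measurable_pi_lambda (δ := G) (fun x : G → B => (fun h => x (h * g) : G → B)) fun h => ?_
    exact measurable_pi_apply (h * g)
  let bx : Finset G → (G → Set B) → Set (Sh G B) := fun s t => {x | ∀ i ∈ s, x i ∈ t i}
  have bxpi : ∀ s t, bx s t = ((s : Set G).pi t : Set (G → B)) := by
    intro s t; rfl
  have hbxm : ∀ s t, (∀ i, MeasurableSet (t i)) → MeasurableSet (bx s t) := by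
    intro s t ht
    rw [bxpi]
    exact MeasurableSet.pi s.countable_toSet fun i _ => ht i
  have hbx : ∀ (s : Finset G) (t : G → Set B), (∀ i, MeasurableSet (t i)) →
      bern G ν (bx s t) = ∏ i ∈ s, ν (t i) := hbox
  have hpre : ∀ (g : G) (s : Finset G) (t : G → Set B),
      (fun x : Sh G B => g • x) ⁻¹' (bx s t) = bx (s.image (· * g)) (fun j => t (j * g⁻¹)) := by
    intro g s t
    ext x
    constructor
    · intro h j hj
      obtain ⟨i, hi, rfl⟩ := Finset.mem_image.mp hj
      have h2 : x (i * g) ∈ t i := h i hi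
      simpa using h2
    · intro h i hi
      have h2 := h (i * g) (Finset.mem_image_of_mem _ hi)
      simp only [mul_inv_cancel_right] at h2
      exact h2
  have hpres : ∀ g : G, MeasurePreserving (fun x : Sh G B => g • x) (bern G ν) (bern G ν) := by
    intro g
    refine ⟨hmeas g, ?_⟩
    refine Measure.eq_infinitePi (fun _ : G => ν) ?_
    intro s t ht
    have h1 : Measure.map (fun x : Sh G B => g • x) (bern G ν) (bx s t) = ∏ i ∈ s, ν (t i) := by
      rw [Measure.map_apply (hmeas g) (hbxm s t ht), hpre, hbx _ _ (fun i => ht _),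
        Finset.prod_image (fun a _ b _ h => mul_right_cancel h)]
      refine Finset.prod_congr rfl fun i _ => ?_
      rw [mul_inv_cancel_right]
    exact h1
  refine hGen G (Sh G B) (bern G ν) (squareCylinders fun _ : G => {s : Set B | MeasurableSet s})
    hprob hpres generateFrom_squareCylinders.symm
    (isPiSystem_squareCylinders (fun _ => MeasurableSpace.isPiSystem_measurableSet)
      (fun _ => MeasurableSet.univ)) ?_
  rintro A ⟨s, a, ha, rfl⟩ B' ⟨t, b, hb, rfl⟩
  have ha' : ∀ i, MeasurableSet (a i) := fun i => ha i (mem_univ i)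
  have hb' : ∀ i, MeasurableSet (b i) := fun i => hb i (mem_univ i)
  have hf : ({g : G | ¬ Disjoint s (t.image (· * g))} : Set G).Finite := by
    refine ((s ×ˢ t).image (fun p => p.2⁻¹ * p.1) : Finset G).finite_toSet.subset ?_
    intro g hg
    rw [mem_ofPred_eq, Finset.not_disjoint_iff] at hg
    obtain ⟨j, hj, hj2⟩ := hg
    obtain ⟨i, hi, rfl⟩ := Finset.mem_image.mp hj2
    refine Finset.mem_coe.2 (Finset.mem_image.2 ⟨(i * g, i), Finset.mem_product.2 ⟨hj, hi⟩, ?_⟩)
    simp
  have hev : ∀ᶠ g : G in cofinite, Disjoint s (t.image (· * g)) := by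
    rw [Filter.eventually_cofinite]
    exact hf
  show Tendsto (fun g : G => (bern G ν).real (bx s a ∩ (fun x : Sh G B => g • x) ⁻¹' (bx t b)))
    cofinite (𝓝 ((bern G ν).real (bx s a) * (bern G ν).real (bx t b)))
  refine tendsto_const_nhds.congr' ?_
  filter_upwards [hev] with g hg
  rw [hpre]
  have e1 : bx s a ∩ bx (t.image (· * g)) (fun j => b (j * g⁻¹)) =
      bx (s ∪ t.image (· * g)) (fun j => if j ∈ s then a j else b (j * g⁻¹)) := by
    ext x
    constructor
    · rintro ⟨h1, h2⟩ j hj
      show (x j : B) ∈ (if j ∈ s then a j else b (j * g⁻¹) : Set B)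
      by_cases hjs : j ∈ s
      · rw [if_pos hjs]; exact h1 j hjs
      · rw [if_neg hjs]; exact h2 j ((Finset.mem_union.mp hj).resolve_left hjs)
    · intro h
      refine ⟨fun j hj => ?_, fun j hj => ?_⟩
      · have h3 : (x j : B) ∈ (if j ∈ s then a j else b (j * g⁻¹) : Set B) :=
          h j (Finset.mem_union_left _ hj)
        rw [if_pos hj] at h3
        exact h3
      · have hjs : j ∉ s := fun hjs => Finset.disjoint_left.mp hg hjs hj
        have h3 : (x j : B) ∈ (if j ∈ s then a j else b (j * g⁻¹) : Set B) :=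
          h j (Finset.mem_union_right _ hj)
        rw [if_neg hjs] at h3
        exact h3
  have e2 : bern G ν (bx (s ∪ t.image (· * g)) (fun j => if j ∈ s then a j else b (j * g⁻¹)))
      = bern G ν (bx s a) * bern G ν (bx t b) := by
    rw [hbx s a ha', hbx t b hb', hbx _ _ (fun i => by by_cases h : i ∈ s <;> simp [h, ha', hb']),
      Finset.prod_union hg]
    congr 1
    · exact Finset.prod_congr rfl fun i hi => by rw [if_pos hi]
    · rw [Finset.prod_image (fun a _ b _ h => mul_right_cancel h)]
      refine Finset.prod_congr rfl fun i hi => ?_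
      rw [if_neg (fun hjs => Finset.disjoint_left.mp hg hjs (Finset.mem_image_of_mem _ hi)),
        mul_inv_cancel_right]
  rw [e1]
  unfold Measure.real
  rw [e2, ENNReal.toReal_mul]
end Pool.Agent.Run7.h420.TM
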