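import Pool.Agent.Run7.h420.TM.Stm

/-! Project TM, piece MIXGEN. Author: helper420 (also by helper664). -/

set_option autoImplicit false
namespace Pool.Agent.Run7.h420.TM
open MeasureTheory Filter Topology Set

theorem hasSum_real {X : Type} [MeasurableSpace X] (μ : Measure X) [IsFiniteMeasure μ]
    {f : ℕ → Set X} (hd : Pairwise (Function.onFun Disjoint f)) (hf : ∀ i, MeasurableSet (f i)) :
    HasSum (fun n => μ.real (f n)) (μ.real (⋃ n, f n)) := by
  have h := measure_iUnion (μ := μ) hd hf
  have h2 : ∑' n, μ (f n) ≠ ⊤ := by rw [← h]; exact measure_ne_top _ _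
  have h3 := ENNReal.hasSum_toReal h2
  rw [← ENNReal.tsum_toReal_eq (fun n => measure_ne_top _ _), ← h] at h3
  exact h3

theorem v_MIXGEN : S_MIXGEN := by
  intro G X _ _ mX μ C hμ hpres hC hpi hmix
  have hgm : ∀ g : G, Measurable (fun x : X => g • x) := fun g => (hpres g).measurable
  have key : ∀ g : G, ∀ B : Set X, MeasurableSet B →
      μ.real ((fun x : X => g • x) ⁻¹' B) = μ.real B := by
    intro g B hB
    unfold Measure.real
    rw [(hpres g).measure_preimage hB.nullMeasurableSet]
  -- step 1
  have h1 : ∀ A ∈ C, ∀ B, MeasurableSet B →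
      Tendsto (fun g : G => μ.real (A ∩ (fun x : X => g • x) ⁻¹' B)) cofinite
        (𝓝 (μ.real A * μ.real B)) := by
    intro A hA B hB
    have hAm : MeasurableSet A := by rw [hC]; exact MeasurableSpace.measurableSet_generateFrom hA
    induction B, hB using MeasurableSpace.induction_on_inter hC hpi with
    | empty => simpa using tendsto_const_nhds
    | basic B hB => exact hmix A hA B hB
    | compl B hB ih =>
      have e : ∀ g : G, μ.real (A ∩ (fun x : X => g • x) ⁻¹' Bᶜ)
          = μ.real A - μ.real (A ∩ (fun x : X => g • x) ⁻¹' B) := by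
        intro g
        have := measureReal_inter_add_sdiff (μ := μ) (s := A) (hgm g hB)
        have e2 : A \ ((fun x : X => g • x) ⁻¹' B) = A ∩ (fun x : X => g • x) ⁻¹' Bᶜ := by
          ext x; simp
        rw [e2] at this
        linarith
      simp_rw [e]
      have e3 : μ.real A * μ.real Bᶜ = μ.real A - μ.real A * μ.real B := by
        rw [measureReal_compl hB]; simp; ring
      rw [e3]
      exact tendsto_const_nhds.sub ih
    | iUnion f hd hf ih =>
      have hsum : Summable fun n => μ.real (f n) :=
        (hasSum_real μ hd hf).summable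
      have e : ∀ g : G, μ.real (A ∩ (fun x : X => g • x) ⁻¹' (⋃ n, f n))
          = ∑' n, μ.real (A ∩ (fun x : X => g • x) ⁻¹' (f n)) := by
        intro g
        rw [Set.preimage_iUnion, Set.inter_iUnion]
        refine (hasSum_real μ ?_ ?_).tsum_eq.symm
        · intro i j hij
          exact (((hd hij).preimage (fun x : X => g • x)).mono inter_subset_right inter_subset_right)
        · intro i; exact hAm.inter (hgm g (hf i))
      simp_rw [e]
      have e3 : μ.real A * μ.real (⋃ n, f n) = ∑' n, μ.real A * μ.real (f n) := by
        rw [tsum_mul_left, (hasSum_real μ hd hf).tsum_eq]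
      rw [e3]
      apply tendsto_tsum_of_dominated_convergence hsum ih
      refine Eventually.of_forall fun g n => ?_
      rw [Real.norm_of_nonneg measureReal_nonneg, ← key g (f n) (hf n)]
      exact measureReal_mono inter_subset_right
  refine ⟨hμ, hpres, ?_⟩
  intro A B hA hB
  induction A, hA using MeasurableSpace.induction_on_inter hC hpi with
  | empty => simpa using tendsto_const_nhds
  | basic A hA => exact h1 A hA B hB
  | compl A hA ih =>
    have e : ∀ g : G, μ.real (Aᶜ ∩ (fun x : X => g • x) ⁻¹' B)
        = μ.real B - μ.real (A ∩ (fun x : X => g • x) ⁻¹' B) := by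
      intro g
      have := measureReal_inter_add_sdiff (μ := μ) (s := (fun x : X => g • x) ⁻¹' B) hA
      rw [key g B hB] at this
      have e2 : ((fun x : X => g • x) ⁻¹' B) \ A = Aᶜ ∩ (fun x : X => g • x) ⁻¹' B := by
        ext x; simp [and_comm]
      rw [e2, Set.inter_comm] at this
      linarith
    simp_rw [e]
    have e3 : μ.real Aᶜ * μ.real B = μ.real B - μ.real A * μ.real B := by
      rw [measureReal_compl hA]; simp; ring
    rw [e3]
    exact tendsto_const_nhds.sub ih
  | iUnion f hd hf ih =>
    have hsum : Summable fun n => μ.real (f n) :=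
      (hasSum_real μ hd hf).summable
    have e : ∀ g : G, μ.real ((⋃ n, f n) ∩ (fun x : X => g • x) ⁻¹' B)
        = ∑' n, μ.real (f n ∩ (fun x : X => g • x) ⁻¹' B) := by
      intro g
      rw [Set.iUnion_inter]
      refine (hasSum_real μ ?_ ?_).tsum_eq.symm
      · intro i j hij
        exact ((hd hij).mono inter_subset_left inter_subset_left)
      · intro i; exact (hf i).inter (hgm g hB)
    simp_rw [e]
    have e3 : μ.real (⋃ n, f n) * μ.real B = ∑' n, μ.real (f n) * μ.real B := by
      rw [tsum_mul_right, (hasSum_real μ hd hf).tsum_eq]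
    rw [e3]
    apply tendsto_tsum_of_dominated_convergence hsum ih
    refine Eventually.of_forall fun g n => ?_
    rw [Real.norm_of_nonneg measureReal_nonneg]
    exact measureReal_mono inter_subset_left
end Pool.Agent.Run7.h420.TM
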