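import Pool.Agent.Run7.h420.TM.Stm

/-! Project TM, piece MIXPROD. Author: helper420 (also by helper664). -/

set_option autoImplicit false
namespace Pool.Agent.Run7.h420.TM
open MeasureTheory Filter Topology Set

theorem v_MIXPROD : S_MIXGEN → S_MIXPROD := by
  intro hGen G X Z _ _ _ _ _ μ ν hμ hν
  have := hμ.prob
  have := hν.prob
  refine hGen G (X × Z) (μ.prod ν) (image2 (· ×ˢ ·) {s : Set X | MeasurableSet s} {t : Set Z | MeasurableSet t})
    inferInstance (fun g => (hμ.pres g).prod (hν.pres g)) generateFrom_prod.symm isPiSystem_prod ?_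
  rintro A ⟨A1, hA1, A2, hA2, rfl⟩ B ⟨B1, hB1, B2, hB2, rfl⟩
  have e : ∀ g : G, (μ.prod ν).real ((A1 ×ˢ A2) ∩ (fun x : X × Z => g • x) ⁻¹' (B1 ×ˢ B2))
      = μ.real (A1 ∩ (fun x : X => g • x) ⁻¹' B1) * ν.real (A2 ∩ (fun x : Z => g • x) ⁻¹' B2) := by
    intro g
    rw [← measureReal_prod_prod]
    congr 1
    ext ⟨x, z⟩
    simp only [mem_inter_iff, mem_prod, mem_preimage, Prod.smul_mk]
    tauto
  show Tendsto (fun g : G => (μ.prod ν).real ((A1 ×ˢ A2) ∩ (fun x : X × Z => g • x) ⁻¹' (B1 ×ˢ B2)))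
    cofinite (𝓝 ((μ.prod ν).real (A1 ×ˢ A2) * (μ.prod ν).real (B1 ×ˢ B2)))
  simp_rw [e]
  rw [measureReal_prod_prod, measureReal_prod_prod]
  have h := (hμ.mix A1 B1 hA1 hB1).mul (hν.mix A2 B2 hA2 hB2)
  convert h using 2
  ring
end Pool.Agent.Run7.h420.TM
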