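import Pool.Agent.Run7.h420.TM.Stm

/-! Project TM, piece PHI. Author: helper420 (also by helper704). -/

set_option autoImplicit false
namespace Pool.Agent.Run7.h420.TM
open MeasureTheory Filter Topology Set

theorem v_PHI : S_ERG → S_PHI := by
  classical
  intro hErg G W L _ _ _ _ _ _ ν w₁ w₂ η hmix hη hinv hne
  have hp := hmix.prob
  -- the set where k is the unique big index
  let U : L → Set W := fun k => {x | 1 / 2 < η k x ∧ ∀ l : L, l ≠ k → ¬ (1 / 2 < η l x)}
  have hU : ∀ k, MeasurableSet (U k) := by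
    intro k
    have h1 : ∀ l : L, MeasurableSet {x | 1 / 2 < η l x} := fun l =>
      measurableSet_lt measurable_const (hη l)
    have e : U k = {x | 1 / 2 < η k x} ∩ ⋂ l : L, ⋂ _ : l ≠ k, {x | 1 / 2 < η l x}ᶜ := by
      ext x; simp [U]
    rw [e]
    exact (h1 k).inter (MeasurableSet.iInter fun l => MeasurableSet.iInter fun _ => (h1 l).compl)
  let E : Set W := ⋃ k, U k
  have hE : MeasurableSet E := MeasurableSet.iUnion hU
  have hmove : ∀ g : G, ∀ᵐ x ∂ν, ∀ k : L, x ∈ U k → g • x ∈ U (w₁ g x * k * (w₂ g x)⁻¹) := by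
    intro g
    filter_upwards [hinv g] with x hx k hk
    refine ⟨?_, ?_⟩
    · rw [hx k]; exact hk.1
    · intro l hl hbig
      have e : l = w₁ g x * ((w₁ g x)⁻¹ * l * w₂ g x) * (w₂ g x)⁻¹ := by group
      rw [e, hx] at hbig
      refine hk.2 _ ?_ hbig
      rintro rfl
      exact hl (by group)
  have hmove' : ∀ g : G, ∀ᵐ x ∂ν, ∀ k : L, g • x ∈ U k → x ∈ U ((w₁ g x)⁻¹ * k * w₂ g x) := by
    intro g
    filter_upwards [hinv g] with x hx k hk
    have e0 : k = w₁ g x * ((w₁ g x)⁻¹ * k * w₂ g x) * (w₂ g x)⁻¹ := by group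
    refine ⟨?_, ?_⟩
    · have := hk.1
      rw [e0, hx] at this
      exact this
    · intro l hl hbig
      rw [← hx l] at hbig
      refine hk.2 _ ?_ hbig
      intro h
      apply hl
      rw [← h]; group
  have hEinv : ∀ g ∈ (Set.univ : Set G), ∀ᵐ x ∂ν, (g • x ∈ E ↔ x ∈ E) := by
    intro g _
    filter_upwards [hmove g, hmove' g] with x h1 h2
    constructor
    · intro h
      obtain ⟨k, hk⟩ := mem_iUnion.mp h
      exact mem_iUnion.mpr ⟨_, h2 k hk⟩
    · intro h
      obtain ⟨k, hk⟩ := mem_iUnion.mp h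
      exact mem_iUnion.mpr ⟨_, h1 k hk⟩
  have hE1 : ν E = 1 := by
    rcases hErg G W ν Set.univ E hmix Set.infinite_univ hE hEinv with h | h
    · exfalso
      apply hne
      refine measure_mono_null ?_ h
      rintro x ⟨hx1, hx2⟩
      exact mem_iUnion.mpr ⟨1, hx1, fun l hl => not_lt.mpr (hx2 l hl).le⟩
    · exact h
  have hEae : ∀ᵐ x ∂ν, x ∈ E := (prob_compl_eq_zero_iff hE).2 hE1
  let φ : W → L := fun x => if h : ∃ k, x ∈ U k then h.choose else 1
  have huniq : ∀ (x : W) (k l : L), x ∈ U k → x ∈ U l → k = l := by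
    intro x k l hk hl
    by_contra hne
    exact hk.2 l (fun h => hne h.symm) hl.1
  have hφ : ∀ (x : W) (k : L), x ∈ U k → φ x = k := by
    intro x k hk
    have hex : ∃ k, x ∈ U k := ⟨k, hk⟩
    have e : φ x = hex.choose := dif_pos hex
    rw [e]
    exact huniq x _ _ hex.choose_spec hk
  refine ⟨φ, ?_, ?_⟩
  · intro k
    by_cases hk1 : k = 1
    · have e : {x | φ x = k} = U k ∪ Eᶜ := by
        ext x
        simp only [mem_ofPred_eq, mem_union, mem_compl_iff]
        constructor
        · intro h
          by_cases hx : x ∈ E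
          · left
            obtain ⟨l, hl⟩ := mem_iUnion.mp hx
            rw [hφ x l hl] at h
            rwa [← h]
          · right; exact hx
        · rintro (h | h)
          · exact hφ x k h
          · have : ¬ ∃ k, x ∈ U k := fun ⟨l, hl⟩ => h (mem_iUnion.mpr ⟨l, hl⟩)
            rw [hk1]; exact dif_neg this
      rw [e]; exact (hU k).union hE.compl
    · have e : {x | φ x = k} = U k := by
        ext x
        simp only [mem_ofPred_eq]
        constructor
        · intro h
          by_cases hx : ∃ l, x ∈ U l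
          · obtain ⟨l, hl⟩ := hx
            rw [hφ x l hl] at h
            rwa [← h]
          · exfalso
            have : φ x = 1 := dif_neg hx
            exact hk1 (h.symm.trans this)
        · exact hφ x k
      rw [e]; exact hU k
  · intro g
    filter_upwards [hEae, hmove g] with x hx h1
    obtain ⟨k, hk⟩ := mem_iUnion.mp hx
    rw [hφ x k hk, hφ _ _ (h1 k hk)]
    group
end Pool.Agent.Run7.h420.TM
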