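import Pool.Agent.Run7.h420.TM.Stm

/-! Project TM, piece POS. Author: helper420 (also by helper280). -/

set_option autoImplicit false
namespace Pool.Agent.Run7.h420.TM
open MeasureTheory Filter Topology Set

theorem v_POS : S_POS := by
  intro Z X L _ _ _ ζ μ h hζ hμ hh h0
  have hm : MeasurableSet {q : Z × (X × X) | h (q.1, q.2.1) = h (q.1, q.2.2)} := by
    have e : {q : Z × (X × X) | h (q.1, q.2.1) = h (q.1, q.2.2)} =
        ⋃ l : L, ({q : Z × (X × X) | h (q.1, q.2.1) = l} ∩ {q | h (q.1, q.2.2) = l}) := by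
      ext q; simp [eq_comm]
    rw [e]
    refine MeasurableSet.iUnion fun l => ?_
    have h1 : Measurable (fun q : Z × (X × X) => (q.1, q.2.1)) := by fun_prop
    have h2 : Measurable (fun q : Z × (X × X) => (q.1, q.2.2)) := by fun_prop
    exact (h1 (hh l)).inter (h2 (hh l))
  rw [Measure.measure_prod_null hm] at h0
  obtain ⟨z, hz⟩ := h0.exists
  have hsec : ∀ l : L, μ {x | h (z, x) = l} = 0 := by
    intro l
    have hs : ({x | h (z, x) = l} ×ˢ {x | h (z, x) = l} : Set (X × X)) ⊆
        Prod.mk z ⁻¹' {q : Z × (X × X) | h (q.1, q.2.1) = h (q.1, q.2.2)} := by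
      rintro ⟨x, x'⟩ ⟨h1, h2⟩
      exact (h1 : h (z, x) = l).trans (h2 : h (z, x') = l).symm
    have h3 := measure_mono_null hs hz
    rw [Measure.prod_prod] at h3
    exact mul_self_eq_zero.mp h3
  have h4 : μ (⋃ l : L, {x | h (z, x) = l}) = 0 := measure_iUnion_null hsec
  have h5 : (⋃ l : L, {x | h (z, x) = l}) = Set.univ := by ext x; simp
  rw [h5, measure_univ] at h4
  exact one_ne_zero h4
end Pool.Agent.Run7.h420.TM
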