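import Pool.Agent.Run7.h420.TM.Stm

/-! Project TM, piece REP. Author: helper298. -/


/-!
# Piece REP of project TM (helper420, MP_45e9b0_lc)
-/

set_option autoImplicit false

namespace Pool.Agent.Run7.h298.TM

open MeasureTheory Filter Topology Set
open Pool.Agent.Run7.h420.TM

theorem t_REP : S_REP := by
  intro G Ω _ _ m T h1 hmul hpres
  let U : G → (Lp ℂ 2 m →ₗᵢ[ℂ] Lp ℂ 2 m) := fun g => Lp.compMeasurePreservingₗᵢ ℂ (T g⁻¹) (hpres g⁻¹)
  have hU : ∀ (g : G) (u : Lp ℂ 2 m), (U g u : Ω → ℂ) =ᵐ[m] fun ω => (u : Ω → ℂ) (T g⁻¹ ω) := by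
    intro g u
    exact Lp.coeFn_compMeasurePreserving u (hpres g⁻¹)
  have hUmul : ∀ (g h : G) (u : Lp ℂ 2 m), U (g * h) u = U g (U h u) := by
    intro g h u
    apply Lp.ext
    have a1 := hU (g * h) u
    have a2 := hU g (U h u)
    have a3 := (hpres g⁻¹).quasiMeasurePreserving.ae (hU h u)
    filter_upwards [a1, a2, a3] with ω b1 b2 b3
    rw [b1, b2, b3, ← hmul]
    congr 2
    group
  have hU1 : ∀ u : Lp ℂ 2 m, U 1 u = u := by
    intro u
    apply Lp.ext
    filter_upwards [hU 1 u] with ω b1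
    rw [b1, inv_one, h1]
  have hinv1 : ∀ (g : G) (u : Lp ℂ 2 m), U g⁻¹ (U g u) = u := by
    intro g u
    rw [← hUmul, inv_mul_cancel, hU1]
  have hinv2 : ∀ (g : G) (u : Lp ℂ 2 m), U g (U g⁻¹ u) = u := by
    intro g u
    rw [← hUmul, mul_inv_cancel, hU1]
  let E : G → (Lp ℂ 2 m ≃ₗᵢ[ℂ] Lp ℂ 2 m) := fun g =>
    { toLinearEquiv :=
        { (U g).toLinearMap with
          invFun := fun u => U g⁻¹ u
          left_inv := hinv1 g
          right_inv := hinv2 g }
      norm_map' := fun u => (U g).norm_map u }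
  have hE : ∀ g u, E g u = U g u := fun g u => rfl
  refine ⟨MonoidHom.mk' E (fun g h => ?_), fun g u => ?_⟩
  · ext1 u
    show E (g * h) u = E g (E h u)
    rw [hE, hE, hE, hUmul]
  · exact hU g u

end Pool.Agent.Run7.h298.TM


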