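import Pool.Agent.Run7.h420.TM.Stm

/-! Project TM, piece SD. Author: helper420 (also by helper704). -/

set_option autoImplicit false
namespace Pool.Agent.Run7.h420.TM
open MeasureTheory Filter Topology Set

instance topoSh_polish (G B : Type) [Countable G] [TopologicalSpace B] [PolishSpace B] : PolishSpace (Sh G B) :=
  inferInstanceAs (PolishSpace (G → B))
instance borelSh (G B : Type) [Countable G] [TopologicalSpace B] [SecondCountableTopology B] [MeasurableSpace B] [BorelSpace B] : BorelSpace (Sh G B) :=
  inferInstanceAs (BorelSpace (G → B))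

theorem qt_cont (G : Type) : Continuous (fun p : ℝ × (XX G × YY G) => qt G p.1 p.2) := by
  have h1 : ∀ h : G, Continuous (fun p : ℝ × (XX G × YY G) => p.2.1 h + ((p.1 * p.2.2 h : ℝ) : UnitAddCircle)) := by
    intro h
    have e1 : Continuous (fun x : XX G => x h) := continuous_apply (A := fun _ : G => UnitAddCircle) h
    have e2 : Continuous (fun x : YY G => x h) := continuous_apply (A := fun _ : G => ℝ) h
    have e3 : Continuous (fun r : ℝ => (r : UnitAddCircle)) := AddCircle.continuous_mk' 1
    exact (e1.comp (continuous_fst.comp continuous_snd)).add (e3.comp (continuous_fst.mul (e2.comp (continuous_snd.comp continuous_snd))))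
  exact continuous_pi (A := fun _ : G => UnitAddCircle) h1

theorem inner_reg {W : Type} [TopologicalSpace W] [PolishSpace W] [MeasurableSpace W] [BorelSpace W]
    (m : Measure W) [IsFiniteMeasure m] : m.InnerRegularCompactLTTop := by
  let _ := TopologicalSpace.upgradeIsCompletelyMetrizable W
  refine ⟨?_⟩
  have := innerRegular_isCompact_isClosed_measurableSet_of_finite m
  intro s hs r hr
  obtain ⟨K, hK, hK2, hK3⟩ := this hs.1 r hr
  exact ⟨K, hK, hK2.1, hK3⟩

theorem t_SD : S_PROBS → S_QPRES → S_SD := by
  intro hP hQ G _ _ t₀ A hA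
  have := hP.1
  have := hP.2
  have j1 : ∀ _ : G, IsProbabilityMeasure (volume : Measure UnitAddCircle) := fun _ => hP.1
  have j2 : ∀ _ : G, IsProbabilityMeasure ((volume : Measure ℝ).restrict (Set.Ioc (0 : ℝ) 1)) :=
    fun _ => hP.2
  have i1 : IsProbabilityMeasure (muX G) := by
    unfold muX bern
    exact Measure.instIsProbabilityMeasureForallInfinitePi _
  have i2 : IsProbabilityMeasure (muY G) := by
    unfold muY bern
    exact Measure.instIsProbabilityMeasureForallInfinitePi _
  have := inner_reg ((muX G).prod (muY G))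
  let F : C(ℝ × (XX G × YY G), XX G) := ⟨_, qt_cont G⟩
  have hF : Tendsto (fun t => F.curry t) (𝓝 t₀) (𝓝 (F.curry t₀)) := F.curry.continuous.tendsto t₀
  have h := tendsto_measure_symmDiff_preimage_nhds_zero (μ := (muX G).prod (muY G)) (ν := muX G) hF
    (Eventually.of_forall fun t => hQ G t) (hQ G t₀) hA.nullMeasurableSet (measure_ne_top _ _)
  have h2 := (ENNReal.tendsto_toReal ENNReal.zero_ne_top).comp h
  exact h2
end Pool.Agent.Run7.h420.TM
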