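import Pool.Agent.Run7.h420.TM.Stm

/-! Project TM, piece SHEAR. Author: helper420 (also by helper298). -/

set_option autoImplicit false
namespace Pool.Agent.Run7.h420.TM
open MeasureTheory Filter Topology Set

noncomputable def rho0 (z : UnitAddCircle) : ℝ := (AddCircle.equivIoc (1 : ℝ) 0 z : ℝ)

theorem rho0_coe (z : UnitAddCircle) : ((rho0 z : ℝ) : UnitAddCircle) = z :=
  AddCircle.coe_equivIoc (p := (1 : ℝ)) (a := 0)

theorem rho0_mp : MeasurePreserving rho0 (volume : Measure UnitAddCircle)
    ((volume : Measure ℝ).restrict (Set.Ioc (0 : ℝ) 1)) := by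
  have h1 := AddCircle.measurePreserving_equivIoc (T := (1 : ℝ)) (a := 0)
  have h2 : MeasurePreserving (Subtype.val : Set.Ioc (0 : ℝ) (0 + 1) → ℝ)
      (Measure.comap Subtype.val volume) ((volume : Measure ℝ).restrict (Set.Ioc (0 : ℝ) (0 + 1))) :=
    measurePreserving_subtype_coe measurableSet_Ioc
  have h3 := h2.comp h1
  have e : Set.Ioc (0 : ℝ) 1 = Set.Ioc (0 : ℝ) (0 + 1) := by rw [zero_add]
  rw [e]
  exact h3

theorem v_SHEAR : S_PROBS → S_SHEAR := by
  intro hP G _ _
  have hP1 := hP.1
  have hP2 := hP.2
  have j1 : IsProbabilityMeasure (muX G) := by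
    unfold muX bern
    exact Measure.instIsProbabilityMeasureForallInfinitePi _
  have j2 : IsProbabilityMeasure (muY G) := by
    unfold muY bern
    exact Measure.instIsProbabilityMeasureForallInfinitePi _
  let S : XX G → XX G → YY G := fun x z h => rho0 (z h - x h)
  have hS : ∀ x : XX G, MeasurePreserving (S x) (muX G) (muY G) := by
    intro x
    have hc : ∀ h : G, MeasurePreserving (fun z : UnitAddCircle => rho0 (z - x h))
        (volume : Measure UnitAddCircle) ((volume : Measure ℝ).restrict (Set.Ioc (0 : ℝ) 1)) := by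
      intro h
      exact rho0_mp.comp (measurePreserving_sub_right volume (x h))
    refine ⟨?_, ?_⟩
    · refine measurable_pi_lambda (δ := G) (fun z : G → UnitAddCircle => (fun h => rho0 (z h - x h) : G → ℝ)) fun h => ?_
      exact (hc h).measurable.comp (measurable_pi_apply h)
    · have h1 := Measure.infinitePi_map_pi (fun _ : G => (volume : Measure UnitAddCircle))
        (f := fun (h : G) (z : UnitAddCircle) => rho0 (z - x h)) (fun h => (hc h).measurable)
      have h2 : (fun h : G => Measure.map (fun z : UnitAddCircle => rho0 (z - x h)) volume) =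
          fun _ : G => (volume : Measure ℝ).restrict (Set.Ioc (0 : ℝ) 1) := by
        funext h; exact (hc h).map_eq
      rw [h2] at h1
      exact h1
  refine ⟨fun p => (p.1, S p.1 p.2), ?_, ?_, ?_, ?_⟩
  · refine MeasurePreserving.skew_product (g := fun x z => S x z) (MeasurePreserving.id _) ?_ ?_
    · refine measurable_pi_lambda (δ := G) (fun p : XX G × XX G => (fun h => rho0 (p.2 h - p.1 h) : G → ℝ)) fun h => ?_
      have e1 : Measurable (fun x : XX G => x h) := measurable_pi_apply (X := fun _ : G => UnitAddCircle) h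
      exact rho0_mp.measurable.comp ((e1.comp measurable_snd).sub (e1.comp measurable_fst))
    · exact Eventually.of_forall fun x => (hS x).map_eq
  · intro g p
    rfl
  · intro p
    funext h
    show p.1 h + ((0 * rho0 (p.2 h - p.1 h) : ℝ) : UnitAddCircle) = p.1 h
    rw [zero_mul]; simp
  · intro p
    funext h
    show p.1 h + ((1 * rho0 (p.2 h - p.1 h) : ℝ) : UnitAddCircle) = p.2 h
    rw [one_mul, rho0_coe]; simp
end Pool.Agent.Run7.h420.TM
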