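import Pool.Agent.Run7.h420.TM.Stm

/-! Project TM, piece SPLIT. Author: helper420 (also by helper280). -/

set_option autoImplicit false
namespace Pool.Agent.Run7.h420.TM
open MeasureTheory Filter Topology Set

theorem v_SPLIT : S_FIB → S_MIXPROD → S_SPLIT := by
  intro hFib hMP G X L _ _ _ _ _ _ μ w φ hmix hw hφ hφw
  have hp := hmix.prob
  have hmix2 : Mixing G (X × X) (μ.prod μ) := hMP G X X μ μ hmix hmix
  have hmix4 : Mixing G ((X × X) × (X × X)) ((μ.prod μ).prod (μ.prod μ)) :=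
    hMP G (X × X) (X × X) _ _ hmix2 hmix2
  have hp2 := hmix2.prob
  let h : (X × X) × X → L := fun q => (φ (q.1.2, q.2))⁻¹ * φ (q.1.1, q.2)
  have m1 : MeasurePreserving (fun q : (X × X) × X => (q.1.1, q.2)) ((μ.prod μ).prod μ) (μ.prod μ) :=
    (measurePreserving_fst).prod (MeasurePreserving.id μ)
  have m2 : MeasurePreserving (fun q : (X × X) × X => (q.1.2, q.2)) ((μ.prod μ).prod μ) (μ.prod μ) :=
    (measurePreserving_snd).prod (MeasurePreserving.id μ)
  have hcm : CM h := by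
    intro l
    have e : {q | h q = l} = ⋃ a : L, ({q : (X × X) × X | φ (q.1.2, q.2) = a} ∩
        {q : (X × X) × X | φ (q.1.1, q.2) = a * l}) := by
      ext q
      simp only [mem_ofPred_eq, mem_iUnion, mem_inter_iff, h]
      constructor
      · intro hq
        exact ⟨φ (q.1.2, q.2), rfl, by rw [← hq]; group⟩
      · rintro ⟨a, h1, h2⟩
        rw [h1, h2]; group
    rw [e]
    exact MeasurableSet.iUnion fun a => (m2.measurable (hφ a)).inter (m1.measurable (hφ _))
  have hinv : ∀ g : G, ∀ᵐ q ∂((μ.prod μ).prod μ),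
      h (g • q) = w g q.1.2 * h q * (w g q.1.1)⁻¹ := by
    intro g
    filter_upwards [m1.quasiMeasurePreserving.ae (hφw g), m2.quasiMeasurePreserving.ae (hφw g)]
      with q e1 e2
    have e1' : w g q.2 * φ (q.1.1, q.2) = φ (g • q.1.1, g • q.2) * w g q.1.1 := e1
    have e2' : w g q.2 * φ (q.1.2, q.2) = φ (g • q.1.2, g • q.2) * w g q.1.2 := e2
    show (φ (g • q.1.2, g • q.2))⁻¹ * φ (g • q.1.1, g • q.2) =
      w g q.1.2 * ((φ (q.1.2, q.2))⁻¹ * φ (q.1.1, q.2)) * (w g q.1.1)⁻¹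
    have f1 : φ (g • q.1.1, g • q.2) = w g q.2 * φ (q.1.1, q.2) * (w g q.1.1)⁻¹ := by
      rw [e1']; group
    have f2 : φ (g • q.1.2, g • q.2) = w g q.2 * φ (q.1.2, q.2) * (w g q.1.2)⁻¹ := by
      rw [e2']; group
    rw [f1, f2]; group
  have key := hFib G (X × X) X L (μ.prod μ) μ h (fun g z => w g z.2) (fun g z => (w g z.1)⁻¹)
    hp2 hp hmix4 hcm hinv
  -- key : for a.e. ((x, x'), (y, y')), h ((x,x'),y) = h ((x,x'),y')
  -- rearrange the order of variables : ((x', y'), (x, y))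
  let T : (X × X) × (X × X) → (X × X) × (X × X) := fun r => ((r.2.1, r.1.1), (r.2.2, r.1.2))
  have hT : MeasurePreserving T ((μ.prod μ).prod (μ.prod μ)) ((μ.prod μ).prod (μ.prod μ)) := by
    refine ⟨by fun_prop, ?_⟩
    refine (Measure.prod_eq_generateFrom (μ := μ.prod μ) (ν := μ.prod μ) generateFrom_prod
      generateFrom_prod isPiSystem_prod isPiSystem_prod ?_ ?_ ?_).symm
    · exact ⟨fun _ => Set.univ, fun _ => ⟨Set.univ, MeasurableSet.univ, Set.univ, MeasurableSet.univ, by simp⟩,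
        fun _ => by simp, by simp [Set.iUnion_const]⟩
    · exact ⟨fun _ => Set.univ, fun _ => ⟨Set.univ, MeasurableSet.univ, Set.univ, MeasurableSet.univ, by simp⟩,
        fun _ => by simp, by simp [Set.iUnion_const]⟩
    · rintro _ ⟨a, ha, b, hb, rfl⟩ _ ⟨c, hc, d, hd, rfl⟩
      have hTm : Measurable T := by fun_prop
      have e : T ⁻¹' ((a ×ˢ b) ×ˢ (c ×ˢ d)) = (b ×ˢ d) ×ˢ (a ×ˢ c) := by
        ext ⟨⟨x1, x2⟩, ⟨x3, x4⟩⟩
        simp only [T, mem_preimage, mem_prod]
        tauto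
      show Measure.map T ((μ.prod μ).prod (μ.prod μ)) ((a ×ˢ b) ×ˢ (c ×ˢ d)) =
        (μ.prod μ) (a ×ˢ b) * (μ.prod μ) (c ×ˢ d)
      rw [Measure.map_apply hTm ((ha.prod hb).prod (hc.prod hd)), e]
      simp only [Measure.prod_prod]
      ring
  have key2 := hT.quasiMeasurePreserving.ae key
  have key3 := Measure.ae_ae_of_ae_prod key2
  obtain ⟨⟨x', y'⟩, hxy⟩ := key3.exists
  refine ⟨fun x => (φ (x', y'))⁻¹ * φ (x, y'), fun y => φ (x', y), ?_, ?_, ?_⟩
  · intro l
    have e : {x | (φ (x', y'))⁻¹ * φ (x, y') = l} =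
        (fun x => (x, y')) ⁻¹' {p | φ p = φ (x', y') * l} := by
      ext x
      simp only [mem_ofPred_eq, mem_preimage]
      constructor
      · intro hh; rw [← hh]; group
      · intro hh; rw [hh]; group
    rw [e]
    exact (measurable_prodMk_right (y := y')) (hφ _)
  · intro l
    exact (measurable_prodMk_left (x := x')) (hφ l)
  · filter_upwards [hxy] with p hp'
    have e : (φ (x', p.2))⁻¹ * φ (p.1, p.2) = (φ (x', y'))⁻¹ * φ (p.1, y') := hp'
    show φ (p.1, p.2) = φ (x', p.2) * ((φ (x', y'))⁻¹ * φ (p.1, y'))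
    rw [← e]; group
end Pool.Agent.Run7.h420.TM
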