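import Pool.Agent.Run7.h420.TM.Stm

/-! Project TM, piece STABB. Author: helper650. -/


/-!
Piece STABB of project TM (helper420).
-/

set_option autoImplicit false

namespace Pool.Agent.Run7.h420.TM

open MeasureTheory Filter Topology Set

open Classical in
/-- the function whose infimum over the orbit is used -/
noncomputable def stF {G Y : Type} [Group G] [MulAction G Y] (K : Subgroup G) (e : Y → ℝ)
    (y : Y) : ℝ := if MulAction.stabilizer G y = K then Real.arctan (e y) else 2

theorem stF_lt {G Y : Type} [Group G] [MulAction G Y] {K : Subgroup G} {e : Y → ℝ} {y : Y}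
    (h : MulAction.stabilizer G y = K) : stF K e y < 2 := by
  unfold stF
  rw [if_pos h]
  have h1 := Real.arctan_lt_pi_div_two (e y)
  have h2 := Real.pi_lt_four
  linarith

theorem stF_eq {G Y : Type} [Group G] [MulAction G Y] {K : Subgroup G} {e : Y → ℝ} {y : Y}
    (h : stF K e y < 2) : stF K e y = Real.arctan (e y) := by
  unfold stF at h ⊢
  split_ifs at h ⊢ with h1
  · rfl
  · exact absurd h (lt_irrefl _)

theorem stF_measurable {G Y : Type} [Group G] [Countable G] [MulAction G Y] [MeasurableSpace Y]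
    (K : Subgroup G) {e : Y → ℝ} (he : Measurable e) (hi : Function.Injective e)
    (hs : ∀ g : G, Measurable (fun y : Y => g • y)) : Measurable (stF K e) := by
  refine Measurable.ite ?_ (Real.measurable_arctan.comp he) measurable_const
  have h1 : {y : Y | MulAction.stabilizer G y = K} =
      ⋂ g : G, {y : Y | e (g • y) = e y ↔ g ∈ K} := by
    ext y
    simp only [mem_ofPred_eq, mem_iInter, hi.eq_iff]
    constructor
    · rintro rfl g
      exact MulAction.mem_stabilizer_iff.symm
    · intro h
      ext g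
      rw [MulAction.mem_stabilizer_iff, h g]
  rw [h1]
  refine MeasurableSet.iInter fun g => ?_
  have h2 : MeasurableSet {y : Y | e (g • y) = e y} :=
    measurableSet_eq_fun (he.comp (hs g)) he
  by_cases hg : g ∈ K
  · simpa [hg] using h2
  · have h3 : {y : Y | e (g • y) = e y ↔ g ∈ K} = {y : Y | e (g • y) = e y}ᶜ := by
      ext y
      simp [hg]
    rw [h3]
    exact h2.compl

theorem t_STABB : S_NORM → S_ERGF → S_ORB → S_STABB := by
  intro hNORM hERGF hORB G X Y _ _ _ _ _ _ _ _ μ f X0 hsm hS K hst
  by_contra hK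
  obtain ⟨F, hF, hN⟩ := hNORM G hsm K hK
  obtain ⟨e, he⟩ := exists_measurableEmbedding_real Y
  have hM : Measurable fun x => ⨅ h : G, stF K e (h • f x) := by
    refine Measurable.iInf fun h => ?_
    exact (stF_measurable K he.measurable he.injective hS.smulY).comp ((hS.smulY h).comp hS.fmeas)
  have hX0 : ∀ᵐ x ∂μ, x ∈ X0 := by
    rw [ae_iff]
    exact hS.X0null
  have hinv : ∀ g ∈ (univ : Set G), ∀ᵐ x ∂μ,
      (⨅ h : G, stF K e (h • f (g • x))) = ⨅ h : G, stF K e (h • f x) := by
    intro g _
    filter_upwards [hX0] with x hx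
    obtain ⟨a, ha⟩ := (hS.red x hx (g • x) (hS.X0inv g x hx)).1 ⟨g, rfl⟩
    have ha' : f (g • x) = a • f x := ha.symm
    rw [ha']
    have h1 : (fun h : G => stF K e (h • a • f x)) =
        (fun h : G => stF K e (h • f x)) ∘ (Equiv.mulRight a) := by
      funext h
      show stF K e (h • a • f x) = stF K e ((h * a) • f x)
      rw [mul_smul]
    rw [h1]
    exact (Equiv.mulRight a).iInf_comp (g := fun h : G => stF K e (h • f x))
  have hprob := hS.mix.prob
  obtain ⟨c, hc⟩ := hERGF G X ℝ μ univ (fun x => ⨅ h : G, stF K e (h • f x)) hS.mix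
    Set.infinite_univ hM hinv
  have key : ∀ᵐ x ∂μ, ∃ h : G, Real.arctan (e (h • f x)) = c := by
    filter_upwards [hc, hst] with x hx ⟨h₀, hh₀⟩
    have hfin : (range fun h : G => stF K e (h • f x)).Finite := by
      refine ((hF.image fun d => stF K e (d • h₀ • f x)).union (finite_singleton 2)).subset ?_
      rintro _ ⟨h, rfl⟩
      by_cases hh : MulAction.stabilizer G (h • f x) = K
      · left
        have h1 : ∀ k : G, k ∈ K ↔ (h * h₀⁻¹) * k * (h * h₀⁻¹)⁻¹ ∈ K := by
          intro k
          nth_rewrite 1 [← hh₀]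
          rw [← hh, MulAction.mem_stabilizer_iff, MulAction.mem_stabilizer_iff]
          have h2 : h • f x = (h * h₀⁻¹) • (h₀ • f x) := by
            rw [smul_smul, inv_mul_cancel_right]
          rw [h2]
          generalize h₀ • f x = z
          rw [smul_smul (h * h₀⁻¹ * k * (h * h₀⁻¹)⁻¹), inv_mul_cancel_right, mul_smul]
          exact (smul_left_cancel_iff _).symm
        obtain ⟨d, hd, k, hk, hdk⟩ := hN _ h1
        refine ⟨d, hd, ?_⟩
        have h2 : h • f x = (h * h₀⁻¹) • (h₀ • f x) := by
          rw [smul_smul, inv_mul_cancel_right]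
        have h3 : k • (h₀ • f x) = h₀ • f x := by
          rw [← hh₀] at hk
          exact hk
        show stF K e (d • h₀ • f x) = stF K e (h • f x)
        rw [h2, hdk, mul_smul, h3]
      · right
        show stF K e (h • f x) = 2
        unfold stF
        rw [if_neg hh]
    obtain ⟨h₁, hh₁⟩ := (range_nonempty fun h : G => stF K e (h • f x)).csInf_mem hfin
    have h4 : stF K e (h₁ • f x) = ⨅ h : G, stF K e (h • f x) := hh₁
    have h5 : (⨅ h : G, stF K e (h • f x)) ≤ stF K e (h₀ • f x) :=
      ciInf_le hfin.bddBelow h₀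
    have h6 : stF K e (h₁ • f x) < 2 := by
      rw [h4]
      exact h5.trans_lt (stF_lt hh₀)
    refine ⟨h₁, ?_⟩
    rw [← stF_eq h6, h4, hx]
  obtain ⟨x₁, h₁, hh₁⟩ := key.exists
  apply hORB G X Y μ f X0 hS (h₁ • f x₁)
  filter_upwards [key] with x ⟨h, hh⟩
  have h2 : h • f x = h₁ • f x₁ := he.injective (Real.arctan_injective (hh.trans hh₁.symm))
  rw [← h2]
  exact ⟨h⁻¹, inv_smul_smul _ _⟩

end Pool.Agent.Run7.h420.TM
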