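import Pool.Agent.Run7.h420.TM.Stm

/-! Project TM, piece VEC. Author: helper611. -/


/-!
# Piece VEC of helper420's project TM
-/

set_option autoImplicit false

namespace Pool.Agent.Run7.h420.TM

open MeasureTheory Filter Topology Set
open scoped ENNReal

section VEC

lemma vec_cocycle_one {G W L : Type} [Group G] [MulAction G W] [MeasurableSpace W] [Group L] {w : G → W → L}
    (h : Cocycle G W L w) (x : W) : w 1 x = 1 := by
  have h1 := h.mul 1 1 x
  rw [one_smul, mul_one] at h1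
  exact (mul_eq_left.1 h1.symm)

/-- the norm of a difference of indicators -/
lemma vec_norm {Ω : Type} [MeasurableSpace Ω] {m : Measure Ω} {E E' : Set Ω} (hE : MeasurableSet E)
    (hE' : MeasurableSet E') {c : ℝ≥0∞} (h1 : m (E \ E') ≤ c) (h2 : m (E' \ E) ≤ c)
    {f : Lp ℂ 2 m} (hf : (f : Ω → ℂ) =ᵐ[m] fun ω => E'.indicator (fun _ => (1 : ℂ)) ω - E.indicator (fun _ => (1 : ℂ)) ω)
    {κ : ℝ} (hκ : 0 < κ) (hc : 2 * c < ENNReal.ofReal (κ ^ 2)) : ‖f‖ < κ := by
  have hD : MeasurableSet ((E \ E') ∪ (E' \ E)) := (hE.diff hE').union (hE'.diff hE)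
  have h3 : eLpNorm (f : Ω → ℂ) 2 m = eLpNorm (((E \ E') ∪ (E' \ E)).indicator fun _ => (1 : ℂ)) 2 m := by
    apply eLpNorm_congr_norm_ae
    filter_upwards [hf] with ω hω
    rw [hω]
    by_cases a : ω ∈ E <;> by_cases b : ω ∈ E' <;> simp [Set.indicator, a, b]
  rw [Lp.norm_def, h3, eLpNorm_indicator_const hD (by norm_num) (by norm_num)]
  have h4 : m ((E \ E') ∪ (E' \ E)) ≤ 2 * c := by
    refine (measure_union_le _ _).trans ?_
    rw [two_mul]
    exact add_le_add h1 h2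
  have h5 : ‖(1 : ℂ)‖ₑ * m ((E \ E') ∪ (E' \ E)) ^ (1 / (2 : ℝ≥0∞).toReal) < ENNReal.ofReal κ := by
    rw [enorm_one, one_mul]
    have h6 : m ((E \ E') ∪ (E' \ E)) ^ (1 / (2 : ℝ≥0∞).toReal) < (ENNReal.ofReal (κ ^ 2)) ^ (1 / (2 : ℝ≥0∞).toReal) := by
      apply ENNReal.rpow_lt_rpow (h4.trans_lt hc)
      norm_num
    refine h6.trans_le (le_of_eq ?_)
    rw [ENNReal.ofReal_rpow_of_nonneg (by positivity) (by norm_num)]
    congr 1
    rw [← Real.rpow_natCast κ 2, ← Real.rpow_mul hκ.le]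
    norm_num
  have h7 := (ENNReal.toReal_lt_toReal (h5.ne_top) ENNReal.ofReal_ne_top).2 h5
  rwa [ENNReal.toReal_ofReal hκ.le] at h7

end VEC

theorem t_VEC : S_KAZ → S_REP → S_SKEW → S_VEC := by
  intro hK hR hSk G _ hT
  classical
  obtain ⟨S₀, κ₀, hκ₀, h⟩ := hK G hT
  refine ⟨S₀.image (fun g => g⁻¹), κ₀ ^ 2 / 2, by positivity, ?_⟩
  intro W L _ _ _ _ ν w₁ w₂ hν hpres hc1 hc2 hS
  letI : MeasurableSpace L := ⊤
  haveI : DiscreteMeasurableSpace L := ⟨fun _ => trivial⟩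
  obtain ⟨m, hm⟩ : ∃ m : Measure (W × L), m = ν.prod Measure.count := ⟨_, rfl⟩
  obtain ⟨T, hT'⟩ : ∃ T : G → W × L → W × L, T = fun g p => (g • p.1, w₁ g p.1 * p.2 * (w₂ g p.1)⁻¹) := ⟨_, rfl⟩
  have hT1 : ∀ ω, T 1 ω = ω := by
    intro ω
    rw [hT']
    show ((1 : G) • ω.1, w₁ 1 ω.1 * ω.2 * (w₂ 1 ω.1)⁻¹) = ω
    rw [vec_cocycle_one hc1, vec_cocycle_one hc2, one_smul]
    simp
  have hTm : ∀ g k ω, T (g * k) ω = T g (T k ω) := by
    intro g k ω
    rw [hT']
    show ((g * k) • ω.1, w₁ (g * k) ω.1 * ω.2 * (w₂ (g * k) ω.1)⁻¹) =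
      (g • (k • ω.1), w₁ g (k • ω.1) * (w₁ k ω.1 * ω.2 * (w₂ k ω.1)⁻¹) * (w₂ g (k • ω.1))⁻¹)
    rw [hc1.mul, hc2.mul, mul_smul]
    congr 1
    group
  have hTp : ∀ g, MeasurePreserving (T g) m m := by
    intro g
    rw [hT', hm]
    exact hSk W L ν (fun x => g • x) (w₁ g) (w₂ g) hν (hpres g) (hc1.meas g) (hc2.meas g)
  obtain ⟨π, hπ⟩ := hR G (W × L) m T hT1 hTm hTp
  obtain ⟨E, hEdef⟩ : ∃ E : Set (W × L), E = {p | p.2 = 1} := ⟨_, rfl⟩
  have hE : MeasurableSet E := by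
    rw [hEdef]
    exact measurable_snd (measurableSet_singleton (1 : L))
  have hprod : ∀ A : Set W, m (A ×ˢ {(1 : L)}) = ν A := by
    intro A
    rw [hm, Measure.prod_prod, Measure.count_singleton, mul_one]
  have hEu : E = Set.univ ×ˢ {(1 : L)} := by
    rw [hEdef]
    ext p
    simp
  have hmE : m E = 1 := by
    rw [hEu, hprod, measure_univ]
  have hmE' : m E ≠ ∞ := by
    rw [hmE]
    exact ENNReal.one_ne_top
  obtain ⟨v, hvdef⟩ : ∃ v : Lp ℂ 2 m, v = indicatorConstLp 2 hE hmE' (1 : ℂ) := ⟨_, rfl⟩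
  have hvae : (v : W × L → ℂ) =ᵐ[m] E.indicator fun _ => (1 : ℂ) := by
    rw [hvdef]
    exact indicatorConstLp_coeFn
  have hv1 : ‖v‖ = 1 := by
    rw [hvdef, norm_indicatorConstLp (by norm_num) (by norm_num)]
    rw [measureReal_def, hmE]
    simp
  have hvS : ∀ s ∈ S₀, ‖π s v - v‖ < κ₀ := by
    intro s hs
    obtain ⟨E', hE'def⟩ : ∃ E' : Set (W × L), E' = T s⁻¹ ⁻¹' E := ⟨_, rfl⟩
    have hE' : MeasurableSet E' := by
      rw [hE'def]
      exact (hTp s⁻¹).measurable hE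
    have hmE2 : m E' = m E := by
      rw [hE'def]
      exact (hTp s⁻¹).measure_preimage hE.nullMeasurableSet
    obtain ⟨D, hD⟩ : ∃ D : Set W, D = {x | w₁ s⁻¹ x ≠ w₂ s⁻¹ x} := ⟨_, rfl⟩
    have d1 : m (E \ E') ≤ ν D := by
      rw [← hprod D]
      apply measure_mono
      rintro ⟨x, k⟩ ⟨hx1, hx2⟩
      rw [hEdef] at hx1
      have hk : k = 1 := hx1
      subst hk
      refine ⟨?_, rfl⟩
      rw [hD]
      intro hcon
      apply hx2
      rw [hE'def, hT', hEdef]
      show w₁ s⁻¹ x * 1 * (w₂ s⁻¹ x)⁻¹ = 1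
      rw [hcon]
      simp
    have d2 : m (E' \ E) ≤ ν D := by
      have e1 : m (E' \ E) = m (E \ E') := by
        have f1 : m (E' ∩ E) + m (E' \ E) = m E' := measure_inter_add_diff E' hE
        have f2 : m (E ∩ E') + m (E \ E') = m E := measure_inter_add_diff E hE'
        rw [Set.inter_comm E' E] at f1
        rw [hmE2, ← f2] at f1
        have f3 : m (E ∩ E') ≠ ∞ := ne_top_of_le_ne_top hmE' (measure_mono Set.inter_subset_left)
        exact (ENNReal.add_right_inj f3).1 f1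
      rw [e1]
      exact d1
    have hs2 : ν.real D < κ₀ ^ 2 / 2 := by
      rw [hD]
      exact hS s⁻¹ (Finset.mem_image_of_mem _ hs)
    have hs3 : 2 * ν D < ENNReal.ofReal (κ₀ ^ 2) := by
      have g1 : ν D = ENNReal.ofReal (ν.real D) := by
        rw [measureReal_def, ENNReal.ofReal_toReal (measure_ne_top ν D)]
      rw [g1]
      have g2 : (2 : ℝ≥0∞) = ENNReal.ofReal 2 := by norm_num
      rw [g2, ← ENNReal.ofReal_mul (by norm_num)]
      apply (ENNReal.ofReal_lt_ofReal_iff (by positivity)).2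
      linarith
    apply vec_norm hE hE' d1 d2 _ hκ₀ hs3
    have a1 : ((π s v - v : Lp ℂ 2 m) : W × L → ℂ) =ᵐ[m] (π s v : W × L → ℂ) - (v : W × L → ℂ) :=
      Lp.coeFn_sub _ _
    have a2 := hπ s v
    have a3 : (fun ω => (v : W × L → ℂ) (T s⁻¹ ω)) =ᵐ[m] fun ω => E.indicator (fun _ => (1 : ℂ)) (T s⁻¹ ω) :=
      (hTp s⁻¹).quasiMeasurePreserving.ae_eq_comp hvae
    filter_upwards [a1, a2, a3, hvae] with ω b1 b2 b3 b4
    rw [b1, Pi.sub_apply, b2, b3, b4]
    congr 1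
    rw [hE'def]
    rfl
  obtain ⟨u, hu, huv⟩ := h (Lp ℂ 2 m) π v hv1 hvS
  have hum : Measurable (u : W × L → ℂ) := (Lp.stronglyMeasurable u).measurable
  refine ⟨fun k x => ‖(u : W × L → ℂ) (x, k)‖, ?_, ?_, ?_⟩
  · intro k
    exact (hum.comp (measurable_id.prodMk measurable_const)).norm
  · intro g
    have a1 := hπ g⁻¹ u
    rw [hu g⁻¹, inv_inv] at a1
    have a2 : ∀ᵐ p ∂(ν.prod (Measure.count : Measure L)), (u : W × L → ℂ) p = (u : W × L → ℂ) (T g p) := by
      rw [← hm]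
      exact a1
    have a3 := Measure.ae_ae_of_ae_prod a2
    filter_upwards [a3] with x hx
    have a4 : ∀ k : L, (u : W × L → ℂ) (x, k) = (u : W × L → ℂ) (T g (x, k)) := by
      rw [Measure.ae_count_iff] at hx
      exact hx
    intro k
    have a5 := a4 k
    rw [hT'] at a5
    show ‖(u : W × L → ℂ) (g • x, w₁ g x * k * (w₂ g x)⁻¹)‖ = ‖(u : W × L → ℂ) (x, k)‖
    rw [a5]
  · -- the good set
    obtain ⟨F, hF⟩ : ∃ F : W × L → ℂ, F = fun p => E.indicator (fun _ => (1 : ℂ)) p - (u : W × L → ℂ) p := ⟨_, rfl⟩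
    have hFm : Measurable F := by
      rw [hF]
      exact (measurable_const.indicator hE).sub hum
    have hFn : eLpNorm F 2 m < ENNReal.ofReal (1 / 4) := by
      have b1 : eLpNorm F 2 m = eLpNorm ((v - u : Lp ℂ 2 m) : W × L → ℂ) 2 m := by
        apply eLpNorm_congr_ae
        have b2 : ((v - u : Lp ℂ 2 m) : W × L → ℂ) =ᵐ[m] (v : W × L → ℂ) - (u : W × L → ℂ) := Lp.coeFn_sub _ _
        filter_upwards [b2, hvae] with ω c1 c2
        rw [c1, Pi.sub_apply, c2, hF]
      rw [b1]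
      have b3 : eLpNorm ((v - u : Lp ℂ 2 m) : W × L → ℂ) 2 m = ENNReal.ofReal ‖v - u‖ := by
        rw [Lp.norm_def, ENNReal.ofReal_toReal]
        exact (Lp.memLp (v - u)).2.ne
      rw [b3]
      exact (ENNReal.ofReal_lt_ofReal_iff (by norm_num)).2 huv
    obtain ⟨Bad, hBad⟩ : ∃ Bad : Set (W × L), Bad = {p | (ENNReal.ofReal (1 / 2)) ≤ ‖F p‖ₑ} := ⟨_, rfl⟩
    have hBadm : MeasurableSet Bad := by
      rw [hBad]
      exact measurableSet_le measurable_const hFm.enorm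
    have hmBad : m Bad ≤ ENNReal.ofReal (1 / 4) := by
      have c1 := meas_ge_le_mul_pow_eLpNorm_enorm m (p := 2) (by norm_num) (by norm_num) hFm.aestronglyMeasurable
        (ε := ENNReal.ofReal (1 / 2)) (by simp) (by simp)
      rw [hBad]
      refine c1.trans ?_
      have c2 : (eLpNorm F 2 m) ^ (2 : ℝ≥0∞).toReal ≤ (ENNReal.ofReal (1 / 4)) ^ (2 : ℝ≥0∞).toReal :=
        ENNReal.rpow_le_rpow hFn.le (by norm_num)
      refine (mul_le_mul_right c2 _).trans ?_
      rw [← ENNReal.ofReal_inv_of_pos (by norm_num), ENNReal.ofReal_rpow_of_nonneg (by norm_num) (by norm_num),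
        ENNReal.ofReal_rpow_of_nonneg (by norm_num) (by norm_num), ← ENNReal.ofReal_mul (by positivity)]
      apply ENNReal.ofReal_le_ofReal
      norm_num
    have hBad2 : ν {x | ∃ k : L, (x, k) ∈ Bad} ≤ m Bad := by
      have c1 : {x | ∃ k : L, (x, k) ∈ Bad} = ⋃ k : L, (fun x => (x, k)) ⁻¹' Bad := by
        ext x
        simp
      rw [c1, hm, Measure.prod_apply_symm hBadm, lintegral_count]
      exact measure_iUnion_le _
    intro hzero
    have c2 : (Set.univ : Set W) ⊆ {x | 1 / 2 < ‖(u : W × L → ℂ) (x, 1)‖ ∧ ∀ k : L, k ≠ 1 →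
        ‖(u : W × L → ℂ) (x, k)‖ < 1 / 2} ∪ {x | ∃ k : L, (x, k) ∈ Bad} := by
      intro x _
      by_cases hx : ∃ k : L, (x, k) ∈ Bad
      · exact Or.inr hx
      · left
        push Not at hx
        have c3 : ∀ k : L, ‖F (x, k)‖ < 1 / 2 := by
          intro k
          have c4 := hx k
          rw [hBad] at c4
          have c5 : ‖F (x, k)‖ₑ < ENNReal.ofReal (1 / 2) := not_le.1 c4
          rw [← ofReal_norm_eq_enorm] at c5
          exact (ENNReal.ofReal_lt_ofReal_iff (by norm_num)).1 c5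
        constructor
        · have c6 := c3 1
          have c7 : F (x, 1) = 1 - (u : W × L → ℂ) (x, 1) := by
            rw [hF]
            show E.indicator (fun _ => (1 : ℂ)) (x, 1) - _ = _
            rw [Set.indicator_of_mem]
            rw [hEdef]
            rfl
          rw [c7] at c6
          have c8 : ‖(1 : ℂ)‖ - ‖(u : W × L → ℂ) (x, 1)‖ ≤ ‖1 - (u : W × L → ℂ) (x, 1)‖ := norm_sub_norm_le _ _
          rw [norm_one] at c8
          show 1 / 2 < ‖(u : W × L → ℂ) (x, 1)‖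
          linarith
        · intro k hk
          have c6 := c3 k
          have c7 : F (x, k) = - (u : W × L → ℂ) (x, k) := by
            rw [hF]
            show E.indicator (fun _ => (1 : ℂ)) (x, k) - _ = _
            rw [Set.indicator_of_notMem, zero_sub]
            rw [hEdef]
            exact hk
          rw [c7, norm_neg] at c6
          exact c6
    have c9 : (1 : ℝ≥0∞) ≤ ENNReal.ofReal (1 / 4) := by
      calc (1 : ℝ≥0∞) = ν Set.univ := measure_univ.symm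
        _ ≤ _ := measure_mono c2
        _ ≤ _ := measure_union_le _ _
        _ ≤ 0 + m Bad := add_le_add hzero.le hBad2
        _ ≤ ENNReal.ofReal (1 / 4) := by rw [zero_add]; exact hmBad
    rw [← ENNReal.ofReal_one] at c9
    have := (ENNReal.ofReal_le_ofReal_iff (by norm_num)).1 c9
    norm_num at this

end Pool.Agent.Run7.h420.TM
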